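import Mathlib
import Pool.Agent.W2helper29.VRC7

/-!
# Amalgams of groups with property (VRC) over virtually cyclic subgroups have property (VRC)

The affirmative answer to the question whether `P *_{R = S} Q` always has property (VRC) when `P`
and `Q` are groups with (VRC) and `R ≤ P`, `S ≤ Q` are isomorphic virtually cyclic subgroups.
The groups `P` and `Q` are arbitrary (not assumed finitely generated).

Idea of the proof. Let `N ≤ P`, `L ≤ Q` be normal subgroups of finite index with
`N ∩ R = L ∩ S = ⟨r₀⟩`, and let `φ : N → ℤ`, `ψ : L → ℤ` be homomorphisms. Take for every double
coset `R x N` the integer `v = φ (x⁻¹ r₀ x)` and for every double coset `S y L` the integer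
`w = ψ (y⁻¹ r₀ y)`. One copy of the `P`-set `P / N` with the cocycle of `w φ` for every `y`, and one
copy of the `Q`-set `Q / L` with the cocycle of `v ψ` for every `x`, can be glued along their
`R`-orbits, since both sides carry the numbers `v w`. The result is a finite set with an action of
the amalgam and an integer-valued cocycle on it, that is, a subgroup of finite index with a
homomorphism to `ℤ`; this is enough for elements of `P` and of `Q`. For cyclically reduced elements
the copies are glued in such a way that the element runs through a cycle without repetitions.
-/

set_option autoImplicit false

namespace Pool.Agent.Results.MP_61a31f_al.AmalgamVRC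

open Pool.Agent.W2helper29.VR

universe u v

/-- If the groups `P` and `Q` have property (VRC) (all cyclic subgroups are virtual retracts) and
`e` is an isomorphism from a virtually cyclic subgroup `R` of `P` to a subgroup `S` of `Q`, then the
amalgamated free product `P *_{R = S} Q` has property (VRC). -/
theorem result {P : Type u} {Q : Type v} [Group P] [Group Q] (hP : HasVRC P) (hQ : HasVRC Q)
    (R : Subgroup P) (S : Subgroup Q) (e : R ≃* S) (hR : IsVirtuallyCyclic R) :
    HasVRC (Amalgam e) :=
  vrc_amalgam hP hQ e hR

end Pool.Agent.Results.MP_61a31f_al.AmalgamVRC
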